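import Mathlib
import Pool.Agent.H744R2.KZ.Props

/-!
Weak limits of bounded families of operators along an ultrafilter.
-/

open scoped ComplexOrder InnerProductSpace ComplexConjugate Topology
open Finset Filter

namespace H744R2.KZ
open H759R2.Kad
universe u

theorem prove_W_lim : W_lim.{u} := by
  intro H _ _ _ ι 𝒰 T C hT
  obtain ⟨i0, -⟩ := 𝒰.neBot.nonempty_of_mem (Filter.univ_mem)
  have hC : 0 ≤ C := (norm_nonneg _).trans (hT i0)
  have hbd : ∀ (x y : H) i, ‖⟪x, T i y⟫_ℂ‖ ≤ C * ‖x‖ * ‖y‖ := by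
    intro x y i
    calc ‖⟪x, T i y⟫_ℂ‖ ≤ ‖x‖ * ‖T i y‖ := norm_inner_le_norm _ _
      _ ≤ ‖x‖ * (C * ‖y‖) := by
          refine mul_le_mul_of_nonneg_left ?_ (norm_nonneg _)
          exact ((T i).le_opNorm y).trans (mul_le_mul_of_nonneg_right (hT i) (norm_nonneg _))
      _ = C * ‖x‖ * ‖y‖ := by ring
  have hlim : ∀ x y : H, ∃ a : ℂ, Tendsto (fun i => ⟪x, T i y⟫_ℂ) 𝒰 (𝓝 a) ∧
      ‖a‖ ≤ C * ‖x‖ * ‖y‖ := by
    intro x y
    have h1 := (isCompact_closedBall (0 : ℂ) (C * ‖x‖ * ‖y‖)).ultrafilter_le_nhds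
      (𝒰.map fun i => ⟪x, T i y⟫_ℂ) (by
        rw [Filter.le_principal_iff]
        change ∀ᶠ i in (𝒰 : Filter ι), ⟪x, T i y⟫_ℂ ∈ Metric.closedBall (0 : ℂ) (C * ‖x‖ * ‖y‖)
        exact Filter.Eventually.of_forall fun i => by simpa using hbd x y i)
    obtain ⟨a, ha1, ha2⟩ := h1
    exact ⟨a, ha2, by simpa using ha1⟩
  choose b hb1 hb2 using hlim
  have uniq : ∀ {f : ι → ℂ} {a a' : ℂ}, Tendsto f 𝒰 (𝓝 a) → Tendsto f 𝒰 (𝓝 a') → a = a' :=
    fun h1 h2 => tendsto_nhds_unique h1 h2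
  have addr : ∀ x y y', b x (y + y') = b x y + b x y' := fun x y y' =>
    uniq (hb1 x (y + y')) (by simpa [inner_add_right] using (hb1 x y).add (hb1 x y'))
  have smulr : ∀ (c : ℂ) x y, b x (c • y) = c * b x y := fun c x y =>
    uniq (hb1 x (c • y)) (by simpa [inner_smul_right] using (hb1 x y).const_mul c)
  have addl : ∀ x x' y, b (x + x') y = b x y + b x' y := fun x x' y =>
    uniq (hb1 (x + x') y) (by simpa [inner_add_left] using (hb1 x y).add (hb1 x' y))
  have smull : ∀ (c : ℂ) x y, b (c • x) y = conj c * b x y := fun c x y =>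
    uniq (hb1 (c • x) y) (by
      have h9 := (hb1 x y).const_mul (conj c)
      refine h9.congr fun i => ?_
      rw [inner_smul_left])
  -- the functionals
  let f : H → (H →L[ℂ] ℂ) := fun y => LinearMap.mkContinuous
    { toFun := fun x => conj (b x y)
      map_add' := fun x x' => by rw [addl, map_add]
      map_smul' := fun c x => by simp [smull] } (C * ‖y‖) (fun x => by
        have := hb2 x y
        simp only [LinearMap.coe_mk, AddHom.coe_mk, RCLike.norm_conj]
        calc ‖b x y‖ ≤ C * ‖x‖ * ‖y‖ := this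
          _ = C * ‖y‖ * ‖x‖ := by ring)
  have hf : ∀ y x, f y x = conj (b x y) := fun y x => rfl
  have hfn : ∀ y, ‖f y‖ ≤ C * ‖y‖ := fun y =>
    LinearMap.mkContinuous_norm_le _ (by positivity) _
  let S0 : H → H := fun y => (InnerProductSpace.toDual ℂ H).symm (f y)
  have hS0 : ∀ x y, ⟪x, S0 y⟫_ℂ = b x y := by
    intro x y
    have h1 : ⟪S0 y, x⟫_ℂ = f y x := InnerProductSpace.toDual_symm_apply
    rw [← inner_conj_symm, h1, hf]
    simp
  let S : H →L[ℂ] H := LinearMap.mkContinuous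
    { toFun := S0
      map_add' := fun y y' => ext_inner_left ℂ fun x => by
        rw [inner_add_right, hS0, hS0, hS0, addr]
      map_smul' := fun c y => ext_inner_left ℂ fun x => by
        rw [RingHom.id_apply, inner_smul_right, hS0, hS0, smulr] } C (fun y => by
          have h1 : ‖S0 y‖ = ‖f y‖ := LinearIsometryEquiv.norm_map _ _
          change ‖S0 y‖ ≤ C * ‖y‖
          rw [h1]; exact hfn y)
  refine ⟨S, LinearMap.mkContinuous_norm_le _ hC _, fun x y => ?_⟩
  have h2 : ⟪x, S y⟫_ℂ = b x y := hS0 x y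
  rw [h2]
  exact hb1 x y

end H744R2.KZ
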